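import Mathlib
import Pool.Agent.R762.Bike6

/-!
# The bicycle monodromy of a convex front track changes once from hyperbolic to elliptic

Idea of the proof. By the theorem of `Pool.Agent.R762.Bike2` a closed rear track over a convex front track
has rotation number one, so (for a counterclockwise front track) it makes an angle `ω ∈ (0, π)` with the
front track all the time. For a smaller length this closed solution is a strict subsolution. Comparison
gives a solution that turns by more than `2π` and another one that turns by less than `2π`, so the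
monodromy is hyperbolic for all smaller lengths. Closed tracks exist for small lengths and do not
exist for large ones.
-/

set_option autoImplicit false

namespace Pool.Agent.Results.MP_08099c_gt.Transition

open Real Set Matrix
open scoped ContDiff

/-- `Γ = (X, Y)` is a smooth regular parametrisation, of period `T`, of a simple closed curve bounding a
strictly convex region: for each `t`, all points of the curve other than `Γ(t)` are strictly on the
same side of the tangent line at `Γ(t)`, on the left (counterclockwise curve) or on the right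
(clockwise curve). -/
structure ConvexFrontTrack (X Y : ℝ → ℝ) (T : ℝ) : Prop where
  pos : 0 < T
  smoothX : ContDiff ℝ ∞ X
  smoothY : ContDiff ℝ ∞ Y
  periodicX : ∀ t, X (t + T) = X t
  periodicY : ∀ t, Y (t + T) = Y t
  regular : ∀ t, deriv X t ≠ 0 ∨ deriv Y t ≠ 0
  simple : ∀ s ∈ Ico 0 T, ∀ t ∈ Ico 0 T, X s = X t → Y s = Y t → s = t
  convex : (∀ s t, (X s ≠ X t ∨ Y s ≠ Y t) →
      0 < deriv X t * (Y s - Y t) - deriv Y t * (X s - X t)) ∨
    (∀ s t, (X s ≠ X t ∨ Y s ≠ Y t) →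
      deriv X t * (Y s - Y t) - deriv Y t * (X s - X t) < 0)

/-- The bicycle equation `ℓ θ' = Γ' · (-sin θ, cos θ)`. -/
def IsSolution (X Y : ℝ → ℝ) (ℓ : ℝ) (θ : ℝ → ℝ) : Prop :=
  ∀ t, HasDerivAt θ ((deriv X t * (-sin (θ t)) + deriv Y t * cos (θ t)) / ℓ) t

/-- `M ∈ SL(2, ℝ)` is a lift of the monodromy `θ(0) ↦ θ(T)`. The circle is the projective line, `θ` being
the line spanned by `(cos (θ/2), sin (θ/2))`. All initial values belong to solutions, and for each
solution `M` takes the line of `θ(0)` to the line of `θ(T)`. -/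
structure IsMonodromy (X Y : ℝ → ℝ) (T ℓ : ℝ) (M : Matrix (Fin 2) (Fin 2) ℝ) : Prop where
  det : M.det = 1
  exists_solution : ∀ x, ∃ θ, IsSolution X Y ℓ θ ∧ θ 0 = x
  map : ∀ θ, IsSolution X Y ℓ θ → ∃ r : ℝ, r ≠ 0 ∧
    M *ᵥ ![cos (θ 0 / 2), sin (θ 0 / 2)] = r • ![cos (θ T / 2), sin (θ T / 2)]

/-- The monodromy is hyperbolic: it has a lift `M`, and all its lifts satisfy `|tr M| > 2`. -/
def Hyperbolic (X Y : ℝ → ℝ) (T ℓ : ℝ) : Prop :=
  (∃ M, IsMonodromy X Y T ℓ M) ∧ ∀ M, IsMonodromy X Y T ℓ M → 2 < |M.trace|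

/-- The monodromy is elliptic: it has a lift `M`, and all its lifts satisfy `|tr M| < 2`. -/
def Elliptic (X Y : ℝ → ℝ) (T ℓ : ℝ) : Prop :=
  (∃ M, IsMonodromy X Y T ℓ M) ∧ ∀ M, IsMonodromy X Y T ℓ M → |M.trace| < 2

lemma isMonodromy_of {X Y : ℝ → ℝ} {T l a b c d : ℝ}
    (hex : ∀ x, ∃ θ, IsSolution X Y l θ ∧ θ 0 = x)
    (h : Pool.Agent.R762.Bike.Mon X Y T l a b c d) : IsMonodromy X Y T l !![a, b; c, d] := by
  refine ⟨by rw [Matrix.det_fin_two_of]; exact h.1, hex, fun θ hθ => ?_⟩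
  obtain ⟨r, hr, h1, h2⟩ := h.2 θ hθ
  refine ⟨r, hr.ne', ?_⟩
  funext i
  fin_cases i
  · simpa [Matrix.mulVec, dotProduct, Fin.sum_univ_two] using h1
  · simpa [Matrix.mulVec, dotProduct, Fin.sum_univ_two] using h2

lemma trace_eq {X Y : ℝ → ℝ} {T l : ℝ} {M N : Matrix (Fin 2) (Fin 2) ℝ}
    (hM : IsMonodromy X Y T l M) (hN : IsMonodromy X Y T l N) : |N.trace| = |M.trace| := by
  rw [Matrix.trace_fin_two, Matrix.trace_fin_two]
  have d1 := hM.det
  have d2 := hN.det
  rw [Matrix.det_fin_two] at d1 d2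
  refine Pool.Agent.R762.Bike.trace_unique d1 d2 fun x => ?_
  obtain ⟨θ, hθ, h0⟩ := hM.exists_solution (2 * x)
  obtain ⟨r, hr, h1⟩ := hM.map θ hθ
  obtain ⟨s, hs, h2⟩ := hN.map θ hθ
  rw [h0, mul_div_cancel_left₀ x (two_ne_zero' ℝ)] at h1 h2
  have a1 := congrFun h1 0
  have a2 := congrFun h1 1
  have b1 := congrFun h2 0
  have b2 := congrFun h2 1
  simp only [Matrix.mulVec, dotProduct, Fin.sum_univ_two, Matrix.cons_val_zero,
    Matrix.cons_val_one, Pi.smul_apply, smul_eq_mul] at a1 a2 b1 b2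
  refine ⟨s / r, ?_, ?_⟩
  · rw [a1, b1]; field_simp
  · rw [a2, b2]; field_simp

/-- The statement for a counterclockwise track, with the sign of the orientation built in. -/
lemma main_ccw {X Y : ℝ → ℝ} {T : ℝ} (hC : Pool.Agent.R762.Bike.Convex X Y T) :
    (∀ l, 0 < l → ∀ x, ∃ θ, IsSolution X Y l θ ∧ θ 0 = x) ∧
    ∃ l₀ : ℝ, 0 < l₀ ∧ (∀ l, 0 < l → l < l₀ → ∃ a b c d,
      Pool.Agent.R762.Bike.Mon X Y T l a b c d ∧ 2 < |a + d|) ∧
    ∀ l, l₀ < l → ∃ a b c d, Pool.Agent.R762.Bike.Mon X Y T l a b c d ∧ |a + d| < 2 := by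
  obtain ⟨v, φ, κ, Tr⟩ := hC.track
  refine ⟨fun l hl x => ?_, Pool.Agent.R762.Bike.transition Tr⟩
  obtain ⟨θ, h0, hθ⟩ := Pool.Agent.R762.Bike.exists_sol Tr hl (x + π)
  exact ⟨fun t => θ t - π, Pool.Agent.R762.Bike.solB_of Tr hθ, by simp only [h0]; ring⟩

/-- **Answer to Q1.** For every simple strictly convex closed front track there is a number `ℓ₀ > 0` such
that the bicycle monodromy is hyperbolic for all lengths `ℓ < ℓ₀` and elliptic for all lengths
`ℓ > ℓ₀`. -/
theorem result (X Y : ℝ → ℝ) (T : ℝ) (hΓ : ConvexFrontTrack X Y T) :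
    ∃ ℓ₀ : ℝ, 0 < ℓ₀ ∧ (∀ ℓ, 0 < ℓ → ℓ < ℓ₀ → Hyperbolic X Y T ℓ) ∧
      ∀ ℓ, ℓ₀ < ℓ → Elliptic X Y T ℓ := by
  suffices h : (∀ l, 0 < l → ∀ x, ∃ θ, IsSolution X Y l θ ∧ θ 0 = x) ∧
      ∃ l₀ : ℝ, 0 < l₀ ∧ (∀ l, 0 < l → l < l₀ → ∃ a b c d,
        Pool.Agent.R762.Bike.Mon X Y T l a b c d ∧ 2 < |a + d|) ∧
      ∀ l, l₀ < l → ∃ a b c d, Pool.Agent.R762.Bike.Mon X Y T l a b c d ∧ |a + d| < 2 by
    obtain ⟨hex, l₀, h0, h1, h2⟩ := h
    refine ⟨l₀, h0, fun l hl hlt => ?_, fun l hlt => ?_⟩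
    · obtain ⟨a, b, c, d, hM, ht⟩ := h1 l hl hlt
      have := isMonodromy_of (hex l hl) hM
      refine ⟨⟨_, this⟩, fun N hN => ?_⟩
      rw [trace_eq this hN, Matrix.trace_fin_two_of]
      exact ht
    · have hl : 0 < l := h0.trans hlt
      obtain ⟨a, b, c, d, hM, ht⟩ := h2 l hlt
      have := isMonodromy_of (hex l hl) hM
      refine ⟨⟨_, this⟩, fun N hN => ?_⟩
      rw [trace_eq this hN, Matrix.trace_fin_two_of]
      exact ht
  rcases hΓ.convex with hc | hc
  · exact main_ccw ⟨hΓ.pos, hΓ.smoothX, hΓ.smoothY, hΓ.periodicX, hΓ.periodicY, hΓ.regular,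
      hΓ.simple, hc⟩
  · -- reflect the curve in the first axis
    have hd : ∀ t, deriv (fun t => -Y t) t = -deriv Y t := fun t => deriv.fun_neg
    have hC : Pool.Agent.R762.Bike.Convex X (fun t => -Y t) T :=
      ⟨hΓ.pos, hΓ.smoothX, hΓ.smoothY.neg, hΓ.periodicX, fun t => by simp only [hΓ.periodicY],
        fun t => by rw [hd]; simpa using hΓ.regular t,
        fun s hs t ht h1 h2 => hΓ.simple s hs t ht h1 (by simpa using h2),
        fun s t h => by
          have := hc s t (by simpa using h)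
          rw [hd]
          linarith⟩
    have href : ∀ l θ, IsSolution X Y l θ → IsSolution X (fun t => -Y t) l fun t => -θ t := by
      intro l θ h t
      refine (h t).neg.congr_deriv ?_
      rw [hd, Real.sin_neg, Real.cos_neg]
      ring
    have href' : ∀ l θ, IsSolution X (fun t => -Y t) l θ → IsSolution X Y l fun t => -θ t := by
      intro l θ h t
      refine (h t).neg.congr_deriv ?_
      rw [hd, Real.sin_neg, Real.cos_neg]
      ring
    have hmon : ∀ l a b c d, Pool.Agent.R762.Bike.Mon X (fun t => -Y t) T l a b c d →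
        Pool.Agent.R762.Bike.Mon X Y T l a (-b) (-c) d := by
      intro l a b c d h
      refine ⟨by linarith [h.1], fun θ hθ => ?_⟩
      obtain ⟨r, hr, h1, h2⟩ := h.2 _ (href l θ hθ)
      refine ⟨r, hr, ?_, ?_⟩
      · simp only [neg_div, Real.cos_neg, Real.sin_neg] at h1
        linarith
      · simp only [neg_div, Real.cos_neg, Real.sin_neg] at h2
        linarith
    obtain ⟨hex, l₀, h0, h1, h2⟩ := main_ccw hC
    refine ⟨fun l hl x => ?_, l₀, h0, fun l hl hlt => ?_, fun l hlt => ?_⟩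
    · obtain ⟨θ, hθ, hx⟩ := hex l hl (-x)
      exact ⟨_, href' l θ hθ, by simp only [hx, neg_neg]⟩
    · obtain ⟨a, b, c, d, hM, ht⟩ := h1 l hl hlt
      exact ⟨_, _, _, _, hmon l a b c d hM, ht⟩
    · obtain ⟨a, b, c, d, hM, ht⟩ := h2 l hlt
      exact ⟨_, _, _, _, hmon l a b c d hM, ht⟩

end Pool.Agent.Results.MP_08099c_gt.Transition
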